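import Mathlib

/-! Finite Borel measures lift along perfect surjections. -/

set_option autoImplicit false

namespace Pool.Agent.P.MP_c9188c_gt.RI

open MeasureTheory Set Filter TopologicalSpace
open scoped ENNReal Topology

variable {X Y : Type*} [TopologicalSpace X] [MeasurableSpace Y] (f : X → Y) (μ : Measure Y)

/-- A finite union of closed sets cut by cylinders. -/
def cut (φ : SimpleFunc Y (Closeds X)) : Set X := {x | x ∈ φ (f x)}

theorem cut_sup (φ ψ : SimpleFunc Y (Closeds X)) : cut f (φ ⊔ ψ) = cut f φ ∪ cut f ψ := rfl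

theorem cut_inf (φ ψ : SimpleFunc Y (Closeds X)) : cut f (φ ⊓ ψ) = cut f φ ∩ cut f ψ := rfl

/-- Submodular set functions below the pulled back measure, regular from outside. -/
structure Cap (c : Set X → ℝ≥0∞) : Prop where
  mono : Monotone c
  top : μ univ ≤ c univ
  sub : ∀ S S', c (S ∪ S') + c (S ∩ S') ≤ c S + c S'
  le : ∀ S, c S ≤ μ (f '' S)
  reg : ∀ S, ⨅ φ : {φ // S ⊆ (cut f φ)ᶜ}, c (cut f φ)ᶜ ≤ c S

theorem cap_zero (hf : Function.Surjective f) : Cap f μ fun S => μ (f '' S) where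
  mono := fun _ _ h => measure_mono (image_mono h)
  top := by rw [image_univ_of_surjective hf]
  sub := fun S S' => by
    rw [← measure_toMeasurable (f '' S),
      ← measure_union_add_inter' (measurableSet_toMeasurable μ (f '' S))]
    refine add_le_add (measure_mono ?_) (measure_mono ((image_inter_subset f S S').trans ?_))
    · rw [image_union]
      exact union_subset_union_left _ (subset_toMeasurable _ _)
    · exact inter_subset_inter_left _ (subset_toMeasurable _ _)
  le := fun _ => le_rfl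
  reg := fun S => by
    classical
    have h : ∀ x, x ∈ (cut f (SimpleFunc.piecewise _ (measurableSet_toMeasurable μ (f '' S))
        (.const Y ⊥) (.const Y ⊤)))ᶜ ↔ f x ∈ toMeasurable μ (f '' S) := fun x => by
      by_cases h : f x ∈ toMeasurable μ (f '' S) <;>
        simp [cut, SimpleFunc.piecewise_apply, h, ← SetLike.mem_coe]
    refine iInf_le_of_le ⟨_, fun x hx => (h x).2 (subset_toMeasurable _ _ ⟨x, hx, rfl⟩)⟩ ?_
    rw [← measure_toMeasurable (f '' S)]
    refine measure_mono ?_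
    rintro _ ⟨x, hx, rfl⟩
    exact (h x).1 hx

variable {f μ}

theorem cap_inf {s : Set (Set X → ℝ≥0∞)} (h : ∀ c ∈ s, Cap f μ c) (hs : IsChain (· ≥ ·) s)
    {c0 : Set X → ℝ≥0∞} (h0 : c0 ∈ s) : Cap f μ fun S => ⨅ c ∈ s, c S where
  mono := fun _ _ k => iInf₂_mono fun c hc => (h c hc).mono k
  top := le_iInf₂ fun c hc => (h c hc).top
  sub := fun S S' => ENNReal.le_iInf₂_add_iInf₂ fun c hc d hd => by
    rcases hs.total hc hd with k | k
    · exact (add_le_add (iInf₂_le d hd) (iInf₂_le d hd)).trans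
        (((h d hd).sub S S').trans (add_le_add (k S) le_rfl))
    · exact (add_le_add (iInf₂_le c hc) (iInf₂_le c hc)).trans
        (((h c hc).sub S S').trans (add_le_add le_rfl (k S')))
  le := fun S => (iInf₂_le c0 h0).trans ((h c0 h0).le S)
  reg := fun S => le_iInf₂ fun c hc => (iInf_mono fun _ => iInf₂_le c hc).trans ((h c hc).reg S)

variable [IsFiniteMeasure μ] {c : Set X → ℝ≥0∞}

theorem Cap.fin (h : Cap f μ c) (S : Set X) : c S ≠ ∞ :=
  ne_top_of_le_ne_top (measure_ne_top μ _) (h.le S)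

theorem Cap.split (h : Cap f μ c) (G : Closeds X) : ∃ d, Cap f μ d ∧ d ≤ c ∧
    ∀ S, d S + c G = c (S ∩ G) + c (S ∪ G) := by
  obtain ⟨d, hd⟩ : ∃ d : Set X → ℝ≥0∞, ∀ S, d S + c G = c (S ∩ G) + c (S ∪ G) :=
    ⟨fun S => c (S ∩ G) + (c (S ∪ G) - c G), fun S => by
      rw [add_assoc, tsub_add_cancel_of_le (h.mono subset_union_right)]⟩
  have k : ∀ {a b : ℝ≥0∞}, a + c G ≤ b + c G → a ≤ b := (ENNReal.add_le_add_iff_right (h.fin G)).1
  have l : d ≤ c := fun S => k (by rw [hd, add_comm]; exact h.sub S G)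
  refine ⟨d, ⟨fun S S' e => k ?_, h.top.trans (k ?_), fun S S' => k (k ?_),
    fun S => (l S).trans (h.le S), fun S => k ?_⟩, l, hd⟩
  · rw [hd, hd]
    exact add_le_add (h.mono (inter_subset_inter_left _ e)) (h.mono (union_subset_union_left _ e))
  · rw [hd, univ_inter, univ_union, add_comm]
  · have h1 := add_le_add (h.sub (S ∩ G) (S' ∩ G)) (h.sub (S ∪ G) (S' ∪ G))
    rw [← union_inter_distrib_right, ← inter_inter_distrib_right, ← union_union_distrib_right,
      ← inter_union_distrib_right, add_add_add_comm, ← hd, ← hd, add_add_add_comm (c (S ∩ G)),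
      ← hd, ← hd] at h1
    calc _ = d (S ∪ S') + c G + (d (S ∩ S') + c G) := by ring
      _ ≤ _ := h1
      _ = _ := by ring
  · rw [hd]
    refine le_trans (ENNReal.le_iInf_add_iInf fun φ ψ => ?_) (add_le_add (h.reg _) (h.reg _))
    refine (add_le_add (iInf_le _ ⟨ψ.1 ⊔ φ.1 ⊓ .const Y G, ?_⟩) le_rfl).trans ?_
    · rw [hd]
      refine add_le_add (h.mono fun x hx e => hx.1 (.inr ⟨e, hx.2⟩)) (h.mono ?_)
      rintro x (hx | hx) e
      · exact hx (.inl e)
      · exact ψ.2 (.inr hx) e
    · rintro x hx (e | ⟨e, e'⟩)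
      · exact ψ.2 (.inl hx) e
      · exact φ.2 ⟨hx, e'⟩ e

omit [IsFiniteMeasure μ] in
theorem Cap.zero (h : Cap f μ c) : c ∅ = 0 := by simpa using h.le ∅

theorem exists_cap (hf : Function.Surjective f) : ∃ c, Cap f μ c ∧
    ∀ G, IsClosed G → ∀ S, c (S ∩ G) + c (S \ G) ≤ c S := by
  obtain ⟨c, -, hc, mn⟩ := zorn_le_nonempty₀ (α := (Set X → ℝ≥0∞)ᵒᵈ) {c | Cap f μ c}
    (fun s h hs c0 h0 => ⟨fun S => ⨅ c ∈ s, c S, cap_inf (fun c hc => h hc) hs h0,
      fun c hc S => iInf₂_le c hc⟩) _ (cap_zero f μ hf)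
  refine ⟨c, hc, fun G hG S => ?_⟩
  obtain ⟨d, h1, h2, h3⟩ := Cap.split hc ⟨G, hG⟩
  obtain rfl : d = c := le_antisymm h2 (mn h1 h2)
  have h4 := h3 (S \ G)
  have h5 := h3 S
  rw [Closeds.coe_mk] at h4 h5
  rw [sdiff_inter_self, h1.zero, zero_add, sdiff_union_self] at h4
  refine (ENNReal.add_le_add_iff_right (h1.fin G)).1 ?_
  rw [add_assoc, h4, h5]

variable [TopologicalSpace Y] [T1Space Y] [OpensMeasurableSpace Y]

theorem Cap.cover (h : Cap f μ c) (hf : IsProperMap f) (t : ℕ → Set X) (ht : univ ⊆ ⋃ n, t n) :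
    μ univ ≤ ∑' n, c (t n) := by
  refine ENNReal.le_of_forall_pos_le_add fun ε hε _ => ?_
  obtain ⟨e, e0, e1⟩ := ENNReal.exists_pos_sum_of_countable (ENNReal.coe_ne_zero.2 hε.ne') ℕ
  choose φ hφ using fun n => iInf_lt_iff.1 ((h.reg (t n)).trans_lt
    (ENNReal.lt_add_right (h.fin _) (ENNReal.coe_ne_zero.2 (e0 n).ne')))
  let ψ : ℕ → SimpleFunc Y (Closeds X) := fun n =>
    Nat.rec (.const Y ⊤) (fun k a => a ⊓ (φ k).1) n
  have h1 : ∀ n, c univ ≤ ∑ k ∈ Finset.range n, c (cut f (φ k).1)ᶜ + c (cut f (ψ n)) := by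
    intro n
    induction n with
    | zero => simpa using h.mono fun x _ => show x ∈ cut f (ψ 0) from trivial
    | succ n ih =>
      rw [Finset.sum_range_succ, add_assoc]
      refine ih.trans (add_le_add le_rfl (le_trans (h.mono fun x hx => ?_)
        (le_self_add.trans (h.sub _ _))))
      exact (em _).symm.imp id fun k => ⟨hx, k⟩
  have an : ∀ n, cut f (ψ (n + 1)) ⊆ cut f (ψ n) := fun n x hx => hx.1
  have h2 := tendsto_measure_iInter_atTop (μ := μ) (s := fun n => f '' cut f (ψ n)) (fun n => by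
    have := (ψ n).measurableSet_cut (fun y (G : Closeds X) => y ∈ f '' G) fun G =>
      (hf.isClosedMap _ G.isClosed).measurableSet
    refine MeasurableSet.nullMeasurableSet (by
      convert this using 1
      ext y
      exact exists_congr fun x => and_congr_left (by rintro rfl; rfl)))
    (antitone_nat_of_succ_le fun n => image_mono (an n)) ⟨0, measure_ne_top _ _⟩
  have h3 : ⋂ n, f '' cut f (ψ n) = ∅ := eq_empty_of_forall_notMem fun y hy => by
    have cl : ∀ n, IsClosed (f ⁻¹' {y} ∩ ψ n y) := fun n =>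
      (isClosed_singleton.preimage hf.continuous).inter (ψ n y).isClosed
    obtain ⟨x, hx⟩ := IsCompact.nonempty_iInter_of_sequence_nonempty_isCompact_isClosed
      (fun n => f ⁻¹' {y} ∩ ψ n y) (fun n x hx => ⟨hx.1, hx.2.1⟩) (fun n => by
        obtain ⟨x, hx, rfl⟩ := mem_iInter.1 hy n
        exact ⟨x, rfl, hx⟩)
      ((hf.isCompact_preimage isCompact_singleton).inter_right (ψ 0 y).isClosed) cl
    obtain ⟨n, hn⟩ := mem_iUnion.1 (ht (mem_univ x))
    obtain ⟨rfl, k⟩ := mem_iInter.1 hx (n + 1)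
    exact (φ n).2 hn k.2
  rw [h3, measure_empty] at h2
  have h4 := ge_of_tendsto' (tendsto_const_nhds.add h2) fun n =>
    show μ univ ≤ (∑' n, c (t n) + ε) + μ (f '' cut f (ψ n)) from h.top.trans ((h1 n).trans
      (add_le_add ((ENNReal.sum_le_tsum _).trans ((ENNReal.tsum_le_tsum fun k => (hφ k).le).trans
        (ENNReal.tsum_add.trans_le (add_le_add le_rfl e1.le)))) (h.le _)))
  rwa [add_zero] at h4

theorem lift [MeasurableSpace X] [BorelSpace X] [BorelSpace Y] (hf : IsProperMap f)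
    (hs : Function.Surjective f) : ∃ ν : Measure X, IsFiniteMeasure ν ∧ ν.map f = μ := by
  obtain ⟨c, h, hc⟩ := exists_cap (μ := μ) hs
  have hm : ‹MeasurableSpace X› ≤ (OuterMeasure.ofFunction c h.zero).caratheodory := by
    rw [BorelSpace.measurable_eq (α := X), borel_eq_generateFrom_isClosed]
    exact MeasurableSpace.generateFrom_le fun G hG => OuterMeasure.ofFunction_caratheodory (hc G hG)
  have h1 : ∀ B, MeasurableSet B →
      ((OuterMeasure.ofFunction c h.zero).toMeasure hm).map f B ≤ μ B := fun B hB => by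
    rw [Measure.map_apply hf.continuous.measurable hB,
      toMeasure_apply _ _ (hf.continuous.measurable hB)]
    exact (OuterMeasure.ofFunction_le _).trans
      ((h.le _).trans (measure_mono (image_preimage_subset f B)))
  have h2 : μ univ ≤ ((OuterMeasure.ofFunction c h.zero).toMeasure hm).map f univ := by
    rw [Measure.map_apply hf.continuous.measurable .univ, preimage_univ, toMeasure_apply _ _ .univ,
      OuterMeasure.ofFunction_apply]
    exact le_iInf₂ (h.cover hf)
  refine ⟨_, ⟨?_⟩, Measure.ext fun B hB => (h1 B hB).antisymm ?_⟩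
  · have := h1 univ .univ
    rw [Measure.map_apply hf.continuous.measurable .univ] at this
    exact this.trans_lt (measure_lt_top _ _)
  · rw [← measure_add_measure_compl hB, ← measure_add_measure_compl hB] at h2
    exact (ENNReal.add_le_add_iff_right (measure_ne_top μ _)).1
      (h2.trans (add_le_add le_rfl (h1 _ hB.compl)))

end Pool.Agent.P.MP_c9188c_gt.RI
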